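import Mathlib

set_option autoImplicit false

open MeasureTheory Set Topology

namespace Pool.Agent.Results.MP_c1fe20_lc.ContinuousMonoidAction

universe u

/-- The relation `R` on `X` Borel reduces to the relation `S` on `Y`. -/
def BorelReduces {X Y : Type*} [MeasurableSpace X] [MeasurableSpace Y]
    (R : X → X → Prop) (S : Y → Y → Prop) : Prop :=
  ∃ f : X → Y, Measurable f ∧ ∀ x x', R x x' ↔ S (f x) (f x')

/-- The quasi-order induced by an action of the monoid `M` on `Z`: `z` is below `z'` if some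
element of the monoid maps `z` to `z'`. -/
def Induced (M Z : Type*) [Monoid M] [MulAction M Z] (z z' : Z) : Prop :=
  ∃ g : M, g • z = z'

/-! ### The gluing map -/

/-- the first `n` letters of `s`, then the reset letter `0`, then `t` -/
def app (n : ℕ) (s t : ℕ → ℕ) : ℕ → ℕ := fun k =>
  if k < n then s k else if k = n then 0 else t (k - n - 1)

open Classical in
/-- the basic move: maps `z` to `z'`, and any other `w` to a sequence which agrees with `z'` as
long as `w` agrees with `z`, and then is a reset followed by `w` -/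
noncomputable def G (z z' w : ℕ → ℕ) : ℕ → ℕ :=
  if w = z then z' else app (PiNat.firstDiff w z) z' w

lemma G_self (z z' : ℕ → ℕ) : G z z' z = z' := by simp [G]

lemma G_ne {z z' w : ℕ → ℕ} (h : w ≠ z) : G z z' w = app (PiNat.firstDiff w z) z' w := by
  simp [G, h]

lemma G_agree {z z' w : ℕ → ℕ} {k : ℕ} (h : ∀ j ≤ k, w j = z j) : G z z' w k = z' k := by
  by_cases hw : w = z
  · rw [hw, G_self]
  · rw [G_ne hw]
    have h1 := PiNat.apply_firstDiff_ne (E := fun _ => ℕ) hw
    have h2 : k < PiNat.firstDiff w z := by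
      by_contra h3
      exact h1 (h _ (not_lt.1 h3))
    simp [app, h2]

lemma firstDiff_eq {z w y v : ℕ → ℕ} {k : ℕ} (hz : ∀ j ≤ k, z j = y j)
    (hw : ∀ j ≤ k, w j = v j) (hne : w ≠ z) (hne' : v ≠ y) (h1 : PiNat.firstDiff w z ≤ k)
    (h2 : PiNat.firstDiff v y ≤ k) : PiNat.firstDiff w z = PiNat.firstDiff v y := by
  have e1 := PiNat.apply_firstDiff_ne (E := fun _ => ℕ) hne
  have e2 := PiNat.apply_firstDiff_ne (E := fun _ => ℕ) hne'
  rcases lt_trichotomy (PiNat.firstDiff w z) (PiNat.firstDiff v y) with h | h | h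
  · have := PiNat.apply_eq_of_lt_firstDiff (E := fun _ => ℕ) h
    rw [← hz _ h1, ← hw _ h1] at this
    exact absurd this e1
  · exact h
  · have := PiNat.apply_eq_of_lt_firstDiff (E := fun _ => ℕ) h
    rw [hz _ h2, hw _ h2] at this
    exact absurd this e2

lemma G_depends {z z' w y y' v : ℕ → ℕ} {k : ℕ} (hz : ∀ j ≤ k, z j = y j)
    (hz' : ∀ j ≤ k, z' j = y' j) (hw : ∀ j ≤ k, w j = v j) : G z z' w k = G y y' v k := by
  by_cases h : ∀ j ≤ k, w j = z j
  · rw [G_agree h, G_agree (fun j hj => by rw [← hw j hj, ← hz j hj, h j hj]), hz' k le_rfl]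
  · push Not at h
    obtain ⟨j, hj, hne⟩ := h
    have hwz : w ≠ z := fun e => hne (by rw [e])
    have hne2 : v j ≠ y j := by rw [← hw j hj, ← hz j hj]; exact hne
    have hvy : v ≠ y := fun e => hne2 (by rw [e])
    have h1 : PiNat.firstDiff w z ≤ k := by
      by_contra h3
      exact hne (PiNat.apply_eq_of_lt_firstDiff (E := fun _ => ℕ) (lt_of_le_of_lt hj (not_le.1 h3)))
    have h2 : PiNat.firstDiff v y ≤ k := by
      by_contra h3
      exact hne2
        (PiNat.apply_eq_of_lt_firstDiff (E := fun _ => ℕ) (lt_of_le_of_lt hj (not_le.1 h3)))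
    rw [G_ne hwz, G_ne hvy, firstDiff_eq hz hw hwz hvy h1 h2]
    unfold app
    split_ifs with h3 h4
    · exact hz' k le_rfl
    · rfl
    · exact hw _ (by omega)

lemma continuous_G : Continuous (fun q : (ℕ → ℕ) × (ℕ → ℕ) × (ℕ → ℕ) => G q.1 q.2.1 q.2.2) := by
  refine continuous_pi fun k => ?_
  apply IsLocallyConstant.continuous
  rw [IsLocallyConstant.iff_exists_open]
  intro p
  let r : (ℕ → ℕ) × (ℕ → ℕ) × (ℕ → ℕ) → (Fin (k + 1) → ℕ × ℕ × ℕ) :=
    fun q j => (q.1 j, q.2.1 j, q.2.2 j)
  have hr : Continuous r := by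
    refine continuous_pi fun j => ?_
    exact ((continuous_apply _).comp continuous_fst).prodMk
      (((continuous_apply _).comp (continuous_fst.comp continuous_snd)).prodMk
        ((continuous_apply _).comp (continuous_snd.comp continuous_snd)))
  refine ⟨r ⁻¹' {r p}, (isOpen_discrete _).preimage hr, rfl, ?_⟩
  intro q hq
  have hq' : ∀ j ≤ k, q.1 j = p.1 j ∧ q.2.1 j = p.2.1 j ∧ q.2.2 j = p.2.2 j := by
    intro j hj
    have := congrFun (hq : r q = r p) ⟨j, by omega⟩
    simpa [r] using this
  exact G_depends (fun j hj => (hq' j hj).1) (fun j hj => (hq' j hj).2.1)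
    (fun j hj => (hq' j hj).2.2)

/-! ### The free monoid over Baire space -/

/-- the free monoid over Baire space -/
def M : Type := FreeMonoid (ℕ → ℕ)

instance : Monoid M := inferInstanceAs (Monoid (FreeMonoid (ℕ → ℕ)))

/-- the bijection of the free monoid with the disjoint union of the finite powers -/
def e : M ≃ Σ n : ℕ, (Fin n → (ℕ → ℕ)) := List.equivSigmaTuple

/-- the topology of the disjoint union of the finite powers of Baire space -/
instance : TopologicalSpace M := TopologicalSpace.induced e inferInstance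

/-- the homeomorphism of the free monoid with the disjoint union of the finite powers -/
def eh : M ≃ₜ Σ n : ℕ, (Fin n → (ℕ → ℕ)) := e.toHomeomorphOfIsInducing ⟨rfl⟩

instance : PolishSpace M := eh.isClosedEmbedding.polishSpace

/-- the inclusion of the `n`-th power -/
def inc (n : ℕ) (a : Fin n → (ℕ → ℕ)) : M := List.ofFn a

lemma inc_eq (n : ℕ) : inc n = eh.symm ∘ Sigma.mk n := by
  funext a
  rfl

lemma isOpenEmbedding_inc (n : ℕ) : IsOpenEmbedding (inc n) := by
  rw [inc_eq]
  exact eh.symm.isOpenEmbedding.comp IsOpenEmbedding.sigmaMk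

lemma exists_inc (m : M) : ∃ n a, inc n a = m := by
  refine ⟨(eh m).1, (eh m).2, ?_⟩
  rw [inc_eq]
  exact eh.symm_apply_apply m

lemma inc_mul (n m : ℕ) (a : Fin n → (ℕ → ℕ)) (b : Fin m → (ℕ → ℕ)) :
    inc n a * inc m b = inc (n + m) (Fin.append a b) :=
  (List.ofFn_fin_append a b).symm

lemma continuous_append (n m : ℕ) : Continuous
    (fun q : (Fin n → (ℕ → ℕ)) × (Fin m → (ℕ → ℕ)) => Fin.append q.1 q.2) := by
  refine continuous_pi fun i => ?_
  refine Fin.addCases (fun j => ?_) (fun j => ?_) i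
  · simp only [Fin.append_left]
    exact (continuous_apply j).comp continuous_fst
  · simp only [Fin.append_right]
    exact (continuous_apply j).comp continuous_snd

instance : ContinuousMul M := by
  constructor
  rw [continuous_iff_continuousAt]
  rintro ⟨x, y⟩
  obtain ⟨n, a, rfl⟩ := exists_inc x
  obtain ⟨m, b, rfl⟩ := exists_inc y
  have h := ((isOpenEmbedding_inc n).prodMap (isOpenEmbedding_inc m)).continuousAt_iff
    (f := Prod.map (inc n) (inc m)) (g := fun q : M × M => q.1 * q.2) (x := (a, b))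
  apply h.1
  have h2 : (fun q : M × M => q.1 * q.2) ∘ Prod.map (inc n) (inc m) =
      inc (n + m) ∘ (fun q : (Fin n → (ℕ → ℕ)) × (Fin m → (ℕ → ℕ)) => Fin.append q.1 q.2) := by
    funext q
    exact inc_mul n m q.1 q.2
  rw [h2]
  exact ((isOpenEmbedding_inc _).continuous.comp (continuous_append n m)).continuousAt

/-- the action of the free monoid given by a map of the generators -/
@[reducible] def act {Z : Type} (T : (ℕ → ℕ) → Z → Z) : MulAction M Z := FreeMonoid.mkMulAction T

lemma act_inc {Z : Type} (T : (ℕ → ℕ) → Z → Z) (n : ℕ) (a : Fin n → (ℕ → ℕ)) (z : Z) :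
    (letI := act T; inc n a • z) = (List.ofFn a).foldr T z := rfl

lemma continuous_foldr {Z : Type} [TopologicalSpace Z] (T : (ℕ → ℕ) → Z → Z)
    (hT : Continuous (fun q : (ℕ → ℕ) × Z => T q.1 q.2)) (n : ℕ) :
    Continuous (fun q : (Fin n → (ℕ → ℕ)) × Z => (List.ofFn q.1).foldr T q.2) := by
  induction n with
  | zero => simpa using continuous_snd
  | succ n ih =>
    simp only [List.ofFn_succ, List.foldr_cons]
    have h1 : Continuous (fun q : (Fin (n + 1) → (ℕ → ℕ)) × Z =>
        ((fun i : Fin n => q.1 i.succ : Fin n → (ℕ → ℕ)), q.2)) := by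
      refine Continuous.prodMk ?_ continuous_snd
      exact continuous_pi fun i => (continuous_apply _).comp continuous_fst
    have h2 : Continuous (fun q : (Fin (n + 1) → (ℕ → ℕ)) × Z => q.1 0) :=
      (continuous_apply _).comp continuous_fst
    exact hT.comp (h2.prodMk (ih.comp h1))

lemma continuousSMul_act {Z : Type} [TopologicalSpace Z] (T : (ℕ → ℕ) → Z → Z)
    (hT : Continuous (fun q : (ℕ → ℕ) × Z => T q.1 q.2)) :
    letI := act T; ContinuousSMul M Z := by
  letI := act T
  constructor
  rw [continuous_iff_continuousAt]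
  rintro ⟨x, z⟩
  obtain ⟨n, a, rfl⟩ := exists_inc x
  have h := ((isOpenEmbedding_inc n).prodMap (IsOpenEmbedding.id (X := Z))).continuousAt_iff
    (f := Prod.map (inc n) id) (g := fun q : M × Z => q.1 • q.2) (x := (a, z))
  apply h.1
  exact (continuous_foldr T hT n).continuousAt

/-! ### The value of a sequence with resets -/

section Val

variable {X : Type u} (r : (ℕ → ℕ) → X) (x₀ : X)

open Classical in
/-- the value of a sequence: `r` of the tail after the last reset `0`, if there is a last one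
(or none at all), and `x₀` if there are infinitely many resets -/
noncomputable def val (z : ℕ → ℕ) : X :=
  if h : ∃ N, ∀ j ≥ N, z j ≠ 0 then r (fun j => z (Nat.find h + j)) else x₀

lemma app_iff (n : ℕ) (s t : ℕ → ℕ) (N : ℕ) :
    (∀ j ≥ n + 1 + N, app n s t j ≠ 0) ↔ ∀ j ≥ N, t j ≠ 0 := by
  constructor
  · intro h j hj
    have := h (n + 1 + j) (by omega)
    have e1 : ¬ n + 1 + j < n := by omega
    have e2 : n + 1 + j ≠ n := by omega
    have e3 : n + 1 + j - n - 1 = j := by omega
    simpa [app, e1, e2, e3] using this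
  · intro h j hj
    have e1 : ¬ j < n := by omega
    have e2 : j ≠ n := by omega
    simpa [app, e1, e2] using h (j - n - 1) (by omega)

lemma app_ge (n : ℕ) (s t : ℕ → ℕ) {N : ℕ} (h : ∀ j ≥ N, app n s t j ≠ 0) : n + 1 ≤ N := by
  by_contra h1
  have := h n (by omega)
  simp [app] at this

lemma val_app (n : ℕ) (s t : ℕ → ℕ) : val r x₀ (app n s t) = val r x₀ t := by
  classical
  by_cases h : ∃ N, ∀ j ≥ N, t j ≠ 0
  · have h' : ∃ N, ∀ j ≥ N, app n s t j ≠ 0 := by
      obtain ⟨N, hN⟩ := h
      exact ⟨n + 1 + N, (app_iff n s t N).2 hN⟩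
    have e : Nat.find h' = n + 1 + Nat.find h := by
      rw [Nat.find_eq_iff]
      refine ⟨(app_iff n s t _).2 (Nat.find_spec h), ?_⟩
      intro m hm h2
      have h3 := app_ge n s t h2
      obtain ⟨m', rfl⟩ := Nat.exists_eq_add_of_le h3
      exact Nat.find_min h (by omega) ((app_iff n s t m').1 h2)
    rw [val, val, dif_pos h, dif_pos h', e]
    congr 1
    funext j
    have e1 : ¬ n + 1 + Nat.find h + j < n := by omega
    have e2 : n + 1 + Nat.find h + j ≠ n := by omega
    have e3 : n + 1 + Nat.find h + j - n - 1 = Nat.find h + j := by omega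
    simp [app, e1, e2, e3]
  · have h' : ¬ ∃ N, ∀ j ≥ N, app n s t j ≠ 0 := by
      rintro ⟨N, hN⟩
      have h3 := app_ge n s t hN
      obtain ⟨m', rfl⟩ := Nat.exists_eq_add_of_le h3
      exact h ⟨m', (app_iff n s t m').1 hN⟩
    rw [val, val, dif_neg h, dif_neg h']

lemma val_of_ne_zero {z : ℕ → ℕ} (h : ∀ j, z j ≠ 0) : val r x₀ z = r z := by
  classical
  have h' : ∃ N, ∀ j ≥ N, z j ≠ 0 := ⟨0, fun j _ => h j⟩
  have e : Nat.find h' = 0 := by
    rw [Nat.find_eq_zero]
    exact fun j _ => h j
  rw [val, dif_pos h', e]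
  simp

lemma measurable_val [MeasurableSpace X] (hr : Measurable r) : Measurable (val r x₀) := by
  classical
  have hA : ∀ N : ℕ, MeasurableSet {z : ℕ → ℕ | ∀ j ≥ N, z j ≠ 0} := by
    intro N
    have : {z : ℕ → ℕ | ∀ j ≥ N, z j ≠ 0} = ⋂ j : ℕ, ⋂ _ : j ≥ N, {z : ℕ → ℕ | z j ≠ 0} := by
      ext z; simp
    rw [this]
    refine MeasurableSet.iInter fun j => MeasurableSet.iInter fun _ => ?_
    have h1 : Measurable (fun z : ℕ → ℕ => z j) := measurable_pi_apply j
    exact h1 (MeasurableSet.of_discrete (s := {x : ℕ | x ≠ 0}))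
  -- the last reset
  let L : (ℕ → ℕ) → ℕ := fun z => if h : ∃ N, ∀ j ≥ N, z j ≠ 0 then Nat.find h else 0
  have hL : Measurable L := by
    refine measurable_to_countable' fun n => ?_
    have : L ⁻¹' {n} = ({z | ∀ j ≥ n, z j ≠ 0} ∩ ⋂ m : ℕ, ⋂ _ : m < n, {z | ∀ j ≥ m, z j ≠ 0}ᶜ) ∪
        ((⋂ N : ℕ, {z : ℕ → ℕ | ∀ j ≥ N, z j ≠ 0}ᶜ) ∩ {_z | n = 0}) := by
      ext z
      by_cases h : ∃ N, ∀ j ≥ N, z j ≠ 0
      · simp only [L, mem_preimage, dif_pos h, mem_singleton_iff, Nat.find_eq_iff, mem_union,
          mem_inter_iff, mem_ofPred_eq, mem_iInter, mem_compl_iff]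
        constructor
        · intro h1
          exact Or.inl h1
        · rintro (h1 | h1)
          · exact h1
          · obtain ⟨N, hN⟩ := h
            exact absurd hN (h1.1 N)
      · simp only [L, mem_preimage, dif_neg h, mem_singleton_iff, mem_union,
          mem_inter_iff, mem_ofPred_eq, mem_iInter, mem_compl_iff]
        constructor
        · intro h1
          exact Or.inr ⟨fun N hN => h ⟨N, hN⟩, h1.symm⟩
        · rintro (h1 | h1)
          · exact absurd ⟨n, h1.1⟩ h
          · exact h1.2.symm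
    rw [this]
    refine MeasurableSet.union ((hA n).inter ?_) (MeasurableSet.inter ?_ (MeasurableSet.const _))
    · exact MeasurableSet.iInter fun m => MeasurableSet.iInter fun _ => (hA m).compl
    · exact MeasurableSet.iInter fun N => (hA N).compl
  have hS : MeasurableSet {z : ℕ → ℕ | ∃ N, ∀ j ≥ N, z j ≠ 0} := by
    have : {z : ℕ → ℕ | ∃ N, ∀ j ≥ N, z j ≠ 0} = ⋃ N : ℕ, {z : ℕ → ℕ | ∀ j ≥ N, z j ≠ 0} := by
      ext z; simp
    rw [this]
    exact MeasurableSet.iUnion hA
  have hT : Measurable (fun z : ℕ → ℕ => fun j : ℕ => z (L z + j)) := by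
    refine measurable_pi_lambda _ fun j => ?_
    refine measurable_to_countable' fun n => ?_
    have : (fun z : ℕ → ℕ => z (L z + j)) ⁻¹' {n} =
        ⋃ m : ℕ, (L ⁻¹' {m} ∩ (fun z : ℕ → ℕ => z (m + j)) ⁻¹' {n}) := by
      ext z
      simp only [mem_preimage, mem_singleton_iff, mem_iUnion, mem_inter_iff]
      constructor
      · intro h
        exact ⟨L z, rfl, h⟩
      · rintro ⟨m, h1, h2⟩
        rw [h1]
        exact h2
    rw [this]
    exact MeasurableSet.iUnion fun m => (hL (MeasurableSet.singleton m)).inter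
      (measurable_pi_apply _ (MeasurableSet.singleton n))
  have : val r x₀ = fun z => if z ∈ {z : ℕ → ℕ | ∃ N, ∀ j ≥ N, z j ≠ 0} then
      r (fun j => z (L z + j)) else x₀ := by
    funext z
    by_cases h : ∃ N, ∀ j ≥ N, z j ≠ 0
    · simp [val, L, h]
    · simp [val, h]
  rw [this]
  exact Measurable.ite hS (hr.comp hT) measurable_const

end Val

/-! ### The main construction -/

theorem main_nonempty (X : Type u) [Nonempty X] [TopologicalSpace X] [PolishSpace X]
    [MeasurableSpace X] [BorelSpace X] (R : Set (X × X)) (hR : AnalyticSet R)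
    (hrefl : ∀ x, (x, x) ∈ R) (htrans : ∀ x y z, (x, y) ∈ R → (y, z) ∈ R → (x, z) ∈ R) :
    ∃ T : (ℕ → ℕ) → (ℕ → ℕ) → (ℕ → ℕ), Continuous (fun q : (ℕ → ℕ) × (ℕ → ℕ) => T q.1 q.2) ∧
      (letI := act T
       BorelReduces (fun x y => (x, y) ∈ R) (Induced M (ℕ → ℕ)) ∧
        BorelReduces (Induced M (ℕ → ℕ)) (fun x y => (x, y) ∈ R)) := by
  classical
  obtain ⟨x₀⟩ := ‹Nonempty X›
  -- a Borel embedding of `X` into Baire space, with no zeros
  obtain ⟨c₀, hc₀m, hc₀i⟩ :=
    MeasurableSpace.measurable_injection_nat_bool_of_countablySeparated X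
  let c : X → (ℕ → ℕ) := fun x n => if c₀ x n then 2 else 1
  have hcm : Measurable c := by
    refine measurable_pi_lambda _ fun n => ?_
    have h1 : Measurable (fun x => c₀ x n) := (measurable_pi_apply n).comp hc₀m
    exact (Measurable.of_discrete (f := fun b : Bool => if b = true then (2 : ℕ) else 1)).comp h1
  have hci : Function.Injective c := by
    intro x y hxy
    apply hc₀i
    funext n
    have := congrFun hxy n
    simp only [c] at this
    cases h1 : c₀ x n <;> cases h2 : c₀ y n <;> simp_all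
  have hc0 : ∀ x j, c x j ≠ 0 := by
    intro x j
    simp only [c]
    split_ifs <;> norm_num
  obtain ⟨r, hrm, hrc⟩ := (hcm.measurableEmbedding hci).exists_measurable_extend
    (g := (id : X → X)) measurable_id (fun _ => ⟨x₀⟩)
  have hval : ∀ x, val r x₀ (c x) = x := by
    intro x
    rw [val_of_ne_zero r x₀ (hc0 x)]
    exact congrFun hrc x
  have hvm : Measurable (val r x₀) := measurable_val r x₀ hrm
  -- the pulled back quasi-order is analytic
  rw [AnalyticSet] at hR
  obtain ⟨ψ, hψ, hψr⟩ : ∃ ψ : (ℕ → ℕ) → X × X, Continuous ψ ∧ range ψ = R := by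
    rcases hR with hR | hR
    · have := hrefl x₀
      rw [hR] at this
      exact absurd this (notMem_empty _)
    · exact hR
  set S : Set ((ℕ → ℕ) × (ℕ → ℕ)) := {q | (val r x₀ q.1, val r x₀ q.2) ∈ R} with hS
  have hSa : AnalyticSet S := by
    have h1 : MeasurableSet {q : ((ℕ → ℕ) × (ℕ → ℕ)) × (ℕ → ℕ) |
        (val r x₀ q.1.1, val r x₀ q.1.2) = ψ q.2} := by
      apply measurableSet_eq_fun
      · exact (hvm.comp (measurable_fst.comp measurable_fst)).prodMk
          (hvm.comp (measurable_snd.comp measurable_fst))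
      · exact hψ.measurable.comp measurable_snd
    have h2 := h1.analyticSet_image (f := (Prod.fst : ((ℕ → ℕ) × (ℕ → ℕ)) × (ℕ → ℕ) → _))
      measurable_fst
    convert h2 using 1
    ext q
    simp only [hS, mem_ofPred_eq, mem_image, Prod.exists, exists_and_right, exists_eq_right]
    rw [← hψr]
    constructor
    · rintro ⟨w, hw⟩
      exact ⟨w, hw.symm⟩
    · rintro ⟨w, hw⟩
      exact ⟨w, hw.symm⟩
  have hSr : ∀ z, (z, z) ∈ S := fun z => hrefl _
  have hSt : ∀ x y z, (x, y) ∈ S → (y, z) ∈ S → (x, z) ∈ S := fun x y z => htrans _ _ _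
  rw [AnalyticSet] at hSa
  obtain ⟨θ, hθ, hθr⟩ : ∃ θ : (ℕ → ℕ) → (ℕ → ℕ) × (ℕ → ℕ), Continuous θ ∧ range θ = S := by
    rcases hSa with hSa | hSa
    · have := hSr (c x₀)
      rw [hSa] at this
      exact absurd this (notMem_empty _)
    · exact hSa
  let T : (ℕ → ℕ) → (ℕ → ℕ) → (ℕ → ℕ) := fun p w => G (θ p).1 (θ p).2 w
  have hT : Continuous (fun q : (ℕ → ℕ) × (ℕ → ℕ) => T q.1 q.2) := by
    have h1 : Continuous (fun q : (ℕ → ℕ) × (ℕ → ℕ) => ((θ q.1).1, (θ q.1).2, q.2)) :=
      (continuous_fst.comp (hθ.comp continuous_fst)).prodMk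
        ((continuous_snd.comp (hθ.comp continuous_fst)).prodMk continuous_snd)
    exact continuous_G.comp h1
  have hTS : ∀ p w, (w, T p w) ∈ S := by
    intro p w
    by_cases h : w = (θ p).1
    · have h1 : T p w = (θ p).2 := by
        simp only [T]
        rw [h, G_self]
      rw [h1, h, ← hθr]
      exact ⟨p, rfl⟩
    · have h1 : val r x₀ (T p w) = val r x₀ w := by
        simp only [T]
        rw [G_ne h, val_app]
      simp only [hS, mem_ofPred_eq, h1]
      exact hrefl _
  have key : ∀ z z' : ℕ → ℕ, (letI := act T; Induced M (ℕ → ℕ) z z') ↔ (z, z') ∈ S := by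
    intro z z'
    letI := act T
    constructor
    · rintro ⟨g, rfl⟩
      have : ∀ l : List (ℕ → ℕ), (z, l.foldr T z) ∈ S := by
        intro l
        induction l with
        | nil => exact hSr z
        | cons p l ih =>
          rw [List.foldr_cons]
          exact hSt _ _ _ ih (hTS p _)
      exact this g
    · intro h
      rw [← hθr] at h
      obtain ⟨p, hp⟩ := h
      refine ⟨FreeMonoid.of p, ?_⟩
      change T p z = z'
      simp only [T]
      rw [hp]
      exact G_self z z'
  refine ⟨T, hT, ⟨c, hcm, ?_⟩, ⟨val r x₀, hvm, ?_⟩⟩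
  · intro x y
    rw [key, hS, mem_ofPred_eq]
    simp only [hval]
  · intro z z'
    rw [key, hS, mem_ofPred_eq]

/-- There is one Polish monoid `M` such that every analytic quasi-order on a standard Borel space
is Borel equivalent to the quasi-order induced by a continuous functional action of `M` on a
Polish space. -/
theorem result : ∃ (M : Type) (_ : Monoid M) (_ : TopologicalSpace M),
    PolishSpace M ∧ ContinuousMul M ∧
    ∀ (X : Type u) [TopologicalSpace X] [PolishSpace X] [MeasurableSpace X] [BorelSpace X]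
      (R : Set (X × X)), AnalyticSet R → (∀ x, (x, x) ∈ R) →
      (∀ x y z, (x, y) ∈ R → (y, z) ∈ R → (x, z) ∈ R) →
      ∃ (Z : Type) (_ : TopologicalSpace Z) (_ : MeasurableSpace Z) (_ : MulAction M Z),
        PolishSpace Z ∧ BorelSpace Z ∧ ContinuousSMul M Z ∧
        BorelReduces (fun x y => (x, y) ∈ R) (Induced M Z) ∧
        BorelReduces (Induced M Z) (fun x y => (x, y) ∈ R) := by
  refine ⟨M, inferInstance, inferInstance, inferInstance, inferInstance, ?_⟩
  intro X _ _ _ _ R hR hrefl htrans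
  rcases isEmpty_or_nonempty X with hX | hX
  · letI : TopologicalSpace Empty := ⊥
    haveI : DiscreteTopology Empty := ⟨rfl⟩
    letI : MeasurableSpace Empty := ⊤
    letI : MulAction M Empty := act (fun _ z => z)
    refine ⟨Empty, inferInstance, inferInstance, inferInstance, inferInstance, ?_, ?_, ?_, ?_⟩
    · exact ⟨by rw [borel_eq_top_of_discrete]⟩
    · refine ⟨?_⟩
      rw [continuous_iff_continuousAt]
      rintro ⟨_, z⟩
      exact z.elim
    · exact ⟨fun x => (hX.false x).elim, measurable_of_empty _, fun x => (hX.false x).elim⟩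
    · exact ⟨fun x => x.elim, measurable_of_empty _, fun x => x.elim⟩
  · obtain ⟨T, hT, h1, h2⟩ := main_nonempty X R hR hrefl htrans
    letI := act T
    exact ⟨ℕ → ℕ, inferInstance, inferInstance, act T, inferInstance, inferInstance,
      continuousSMul_act T hT, h1, h2⟩

end Pool.Agent.Results.MP_c1fe20_lc.ContinuousMonoidAction
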